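import Pool.Agent.H949.PM.Main
import Pool.Agent.H949.PM.Marking
import Pool.Agent.H949.PM.RW
import Pool.Agent.H949.PM.Rings
import Pool.Agent.H949.PM.Stat
import Pool.Agent.H949.PM.Exists
import Pool.Agent.H949.PM.Jumps
import Pool.Agent.H949.PM.NoDouble

/-!
# The critical Pool model does not grow linearly (MP_853d78_pr, Q1, answered in the negative)

The model (`radius`, `IsSystem`) is defined in `Pool/Agent/H949/PM/Defs.lean`.

Idea of the proof. Every absorbed particle adds `1` to the area of the disc, so at every time `t` the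
number of the particles which are at time `t` in the disc of radius `R(t)` is at most
`π R(t)² - 1`. At every fixed time the particles form a Poisson process of intensity `1`, so the
number of particles in the disc of area `a`, minus `a`, is a centred Poisson process in `a`, which is
nonnegative for all `a` in `[m, (1+κ) m]` with a probability which is bounded away from `0`,
uniformly in `m` and in `t`. On this event `π R(t)²` is not in `[m, (1+κ) m]`. So the radius at time
`t` is never concentrated near a deterministic value.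
-/

set_option autoImplicit false

namespace Pool.Agent.Results.MP_853d78_pr.NoLinearGrowth

open MeasureTheory ProbabilityTheory Set Filter Topology
open scoped ENNReal NNReal
open Pool.Agent.Helper712_LP Pool.Agent.H949.PM

/-- (0) The particle system of the Pool model with `λ = 1` exists. Let `X`, `Y` be any such system. (1) For every `ξ > 0`, with
positive probability `radius t / t` does not converge to `ξ`: the answer to Q1 is negative.
(2) More generally, for no deterministic function `g` with `g(t) → ∞` does `radius t / g(t)` converge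
to `1` almost surely. (3) There are absolute constants `δ, p, r₀ > 0` such that at every time `t` and
for every `r ≥ r₀` the radius is in `[r, (1+δ) r]` with probability at most `1 - p`. -/
theorem result :
    (∃ (Ω : Type) (_ : MeasurableSpace Ω) (P : Measure Ω) (_ : IsProbabilityMeasure P)
      (X : ℕ → Ω → E 2) (Y : ℕ → Ω → Mark), IsSystem P 1 X Y) ∧
    (∀ (Ω : Type) [MeasurableSpace Ω] (P : Measure Ω) [IsProbabilityMeasure P]
      (X : ℕ → Ω → E 2) (Y : ℕ → Ω → Mark), IsSystem P 1 X Y →
      (∀ ξ : ℝ, 0 < ξ → ¬ ∀ᵐ ω ∂P,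
        Tendsto (fun t : ℝ≥0 => radius X Y t ω / t) atTop (𝓝 (ENNReal.ofReal ξ))) ∧
      (∀ g : ℝ≥0 → ℝ, Tendsto g atTop atTop → ¬ ∀ᵐ ω ∂P,
        Tendsto (fun t : ℝ≥0 => radius X Y t ω / ENNReal.ofReal (g t)) atTop (𝓝 1))) ∧
    ∃ δ p r₀ : ℝ, 0 < δ ∧ 0 < p ∧ 0 < r₀ ∧
      ∀ (Ω : Type) [MeasurableSpace Ω] (P : Measure Ω) [IsProbabilityMeasure P]
        (X : ℕ → Ω → E 2) (Y : ℕ → Ω → Mark), IsSystem P 1 X Y → ∀ (t : ℝ≥0) (r : ℝ), r₀ ≤ r →
        P {ω | ENNReal.ofReal r ≤ radius X Y t ω ∧
          radius X Y t ω ≤ ENNReal.ofReal ((1 + δ) * r)} ≤ 1 - ENNReal.ofReal p := by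
  have hstat := stationary marking
  refine ⟨exists_system 1 one_pos, ?_, ?_⟩
  · intro Ω _ P _ X Y h
    have h2 := no_limit rw_walk rings hstat jumps_ae noDouble P X Y h
    refine ⟨fun ξ hξ hcon => ?_, h2⟩
    refine h2 (fun t => ξ * t) ?_ ?_
    · exact (NNReal.tendsto_coe_atTop.2 tendsto_id).const_mul_atTop hξ
    · filter_upwards [hcon] with ω hω
      have hξ0 : ENNReal.ofReal ξ ≠ 0 := by simpa using hξ
      have h3 : Tendsto (fun t : ℝ≥0 => radius X Y t ω / t / ENNReal.ofReal ξ) atTop
          (𝓝 (ENNReal.ofReal ξ / ENNReal.ofReal ξ)) :=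
        ENNReal.Tendsto.div_const hω (Or.inr hξ0)
      rw [ENNReal.div_self hξ0 ENNReal.ofReal_ne_top] at h3
      refine h3.congr' ?_
      filter_upwards [eventually_gt_atTop 0] with t ht
      rw [ENNReal.ofReal_mul hξ.le, ENNReal.ofReal_coe_nnreal, mul_comm (ENNReal.ofReal ξ),
        div_eq_mul_inv, div_eq_mul_inv, div_eq_mul_inv, mul_assoc,
        ENNReal.mul_inv (Or.inr ENNReal.ofReal_ne_top) (Or.inr hξ0)]
  · obtain ⟨δ, p, r₀, h1, -, h3, h4, h5⟩ := spread rw_walk rings hstat jumps_ae noDouble
    exact ⟨δ, p, r₀, h1, h3, h4, fun Ω _ P _ X Y h => h5 P X Y h⟩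

end Pool.Agent.Results.MP_853d78_pr.NoLinearGrowth
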